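import Mathlib
import Pool.Agent.Helper40.CX.H17FF.Approx
import Pool.Agent.Helper40.CX.Good

namespace CX

/-!
# Zeros of functions, degrees
-/

namespace FF

open VC WithZero Polynomial IntermediateField

universe u

section places

variable {k F : Type*} [Field k] [Field F] [Algebra k F]

/-- Existence of places with prescribed centre. -/
theorem exists_place_of_subring (A : Subring F) (hk : ∀ a : k, algebraMap k F a ∈ A) (I : Ideal A)
    (hI : I ≠ ⊤) (hI0 : ∃ x ∈ I, x ≠ 0) :
    ∃ P : Place k F, (∀ x ∈ A, x ∈ P.ring) ∧ ∀ x ∈ I, (x : F) ∈ P.ring.nonunits := by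
  obtain ⟨B, hB1, hB2⟩ := Ideal.image_subset_nonunits_valuationSubring I hI
  obtain ⟨x, hxI, hx0⟩ := hI0
  have h2 : ∀ x ∈ I, (x : F) ∈ B.nonunits := fun x hx => hB2 ⟨x, hx, rfl⟩
  refine ⟨⟨B, fun a => hB1 (hk a), ?_⟩, fun x hx => hB1 hx, h2⟩
  rintro rfl
  rcases (ValuationSubring.mem_nonunits_iff_or _).mp (h2 x hxI) with h | h
  · exact hx0 (Subtype.ext h)
  · exact h (ValuationSubring.mem_top _)

/-- A transcendental function has a zero. -/
theorem exists_place {t : F} (htr : Transcendental k t) :
    ∃ P : Place k F, t ∈ P.ring.nonunits := by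
  have ht0 : t ≠ 0 := by
    rintro rfl
    exact htr isAlgebraic_zero
  let A : Subring F := (aeval t : k[X] →ₐ[k] F).toRingHom.range
  have htA : t ∈ A := ⟨X, by simp⟩
  obtain ⟨P, hP1, hP2⟩ := exists_place_of_subring (k := k) A (fun a => ⟨C a, by simp⟩)
    (Ideal.span {⟨t, htA⟩}) (by
      rw [Ne, Ideal.eq_top_iff_one, Ideal.mem_span_singleton]
      rintro ⟨⟨_, q, rfl⟩, hq⟩
      have h1 := congrArg Subtype.val hq
      change (1 : F) = t * aeval t q at h1
      have h2 : aeval t (X * q - 1) = 0 := by
        rw [map_sub, map_mul, aeval_X, map_one, ← h1, sub_self]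
      have h3 := (transcendental_iff.mp htr) _ h2
      have h4 := congrArg (Polynomial.eval 0) h3
      simp at h4)
    ⟨⟨t, htA⟩, Ideal.subset_span rfl, fun h => ht0 (congrArg Subtype.val h)⟩
  exact ⟨P, hP2 ⟨t, htA⟩ (Ideal.subset_span rfl)⟩

end places

section zeros

variable {k F : Type*} [Field k] [IsAlgClosed k] [Field F] [Algebra k F]
  (hF : IsFunctionField k F)

include hF

lemma val_sum_pow_le {P : Place k F} {π : F} (hπ0 : π ≠ 0) (hπ : ord P.ring π = 1) {e : ℕ}
    (c : Fin e → k) (h : val hF P (∑ a : Fin e, algebraMap k F (c a) * π ^ (a : ℕ)) ≤ exp (-(e : ℤ))) :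
    ∀ a, c a = 0 := by
  classical
  by_contra hcon
  push Not at hcon
  have hcon' : (Finset.univ.filter fun a => c a ≠ 0).Nonempty := by
    obtain ⟨a, ha⟩ := hcon
    exact ⟨a, by simpa using ha⟩
  set j := (Finset.univ.filter fun a => c a ≠ 0).min' hcon' with hj
  have hjc : c j ≠ 0 := by
    have := Finset.min'_mem _ hcon'
    rw [← hj] at this
    simpa using this
  have hmin : ∀ a, a < j → c a = 0 := by
    intro a ha
    by_contra hne
    have := Finset.min'_le (Finset.univ.filter fun a => c a ≠ 0) a (by simpa using hne)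
    rw [← hj] at this
    exact absurd ha (not_lt.mpr this)
  have hval : ∀ a, c a ≠ 0 → val hF P (algebraMap k F (c a) * π ^ (a : ℕ)) = exp (-(a : ℤ)) := by
    intro a ha
    have h0 : algebraMap k F (c a) ≠ 0 := (_root_.map_ne_zero _).mpr ha
    rw [val_eq_exp hF P (mul_ne_zero h0 (pow_ne_zero _ hπ0)), ord_mul hF P h0 (pow_ne_zero _ hπ0),
      ord_algebraMap hF P ha, ord_pow hF P hπ0, hπ]
    congr 1
    ring
  have h1 : val hF P (∑ a : Fin e, algebraMap k F (c a) * π ^ (a : ℕ)) =
      val hF P (algebraMap k F (c j) * π ^ (j : ℕ)) := by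
    apply Valuation.map_sum_eq_of_lt _ (Finset.mem_univ j)
    intro a ha
    rw [Finset.mem_sdiff, Finset.mem_singleton] at ha
    rw [hval j hjc]
    by_cases hca : c a = 0
    · rw [hca, map_zero, zero_mul, map_zero]
      exact zero_lt_iff.mpr exp_ne_zero
    · rw [hval a hca, exp_lt_exp]
      have h2 : ¬ a < j := fun hlt => hca (hmin a hlt)
      have h3 : (j : ℕ) < a := by
        have : j < a := lt_of_le_of_ne (not_lt.mp h2) (fun h => ha.2 h.symm)
        exact this
      omega
  rw [h1, hval j hjc, exp_le_exp] at h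
  have := j.2
  omega

/-- The number of zeros of `t`, counted with multiplicity, is at most `[F : k(t)]`. -/
theorem sum_ord_le {t : F} (ht : Transcendental k t) (S : Finset (Place k F))
    (hS : ∀ P ∈ S, t ∈ P.ring.nonunits) :
    ∑ P ∈ S, ord P.ring t ≤ Module.finrank k⟮t⟯ F := by
  classical
  have ht0 : t ≠ 0 := by
    rintro rfl
    exact ht isAlgebraic_zero
  have hpos : ∀ P ∈ S, 0 < ord P.ring t := fun P hP => (ord_pos_iff hF P ht0).mpr (hS P hP)
  set E : ℤ := ∑ P ∈ S, ord P.ring t with hE
  have hEle : ∀ P ∈ S, ord P.ring t ≤ E := fun P hP =>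
    Finset.single_le_sum (fun Q hQ => (hpos Q hQ).le) hP
  choose π hπ0 hπ1 using exists_uniformizer hF
  let ι := Σ P : S, Fin (ord P.1.ring t).toNat
  choose z hz using fun i : ι =>
    approx hF S (fun Q => if Q = i.1.1 then π i.1.1 ^ (i.2 : ℕ) else 0) (-E)
  have hval0 : ∀ P ∈ S, exp (-E) ≤ (exp (- ord P.ring t) : WithZero (Multiplicative ℤ)) := by
    intro P hP
    rw [exp_le_exp]
    have := hEle P hP
    omega
  have hE1 : ∀ P ∈ S, exp (-E) ≤ (1 : WithZero (Multiplicative ℤ)) := by
    intro P hP
    rw [← exp_zero, exp_le_exp]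
    have := hEle P hP
    have := hpos P hP
    omega
  let R : Subring F :=
    { carrier := {x | ∀ P ∈ S, x ∈ P.ring}
      mul_mem' := fun {a b} ha hb P hP => P.ring.mul_mem _ _ (ha P hP) (hb P hP)
      one_mem' := fun P _ => P.ring.one_mem
      add_mem' := fun {a b} ha hb P hP => P.ring.add_mem _ _ (ha P hP) (hb P hP)
      zero_mem' := fun P _ => P.ring.zero_mem
      neg_mem' := fun {a} ha P hP => P.ring.neg_mem _ (ha P hP) }
  have hcard := card_le_of_mod t ht (hF.finiteDimensional ht) R
    (fun a P _ => P.algebraMap_mem a) (fun P hP => ValuationSubring.nonunits_subset (hS P hP))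
    z (by
      intro i P hP
      rw [← val_le_one_iff hF]
      have h1 := (hz i P hP).le.trans (hE1 P hP)
      have h2 : z i = (z i - (if P = i.1.1 then π i.1.1 ^ (i.2 : ℕ) else 0)) +
        (if P = i.1.1 then π i.1.1 ^ (i.2 : ℕ) else 0) := by ring
      rw [h2]
      refine (Valuation.map_add _ _ _).trans (max_le h1 ?_)
      split_ifs with h
      · rw [h, map_pow]
        apply pow_le_one₀ zero_le
        rw [val_le_one_iff hF, ← ord_nonneg_iff hF _ (hπ0 _), hπ1]
        norm_num
      · rw [map_zero]; exact zero_le)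
    (by
      rintro c ⟨r, hr, hcr⟩ ⟨⟨P, hP⟩, a⟩
      have hker := val_sum_pow_le hF (hπ0 P) (hπ1 P) (fun a => c ⟨⟨P, hP⟩, a⟩) (by
        have e1 : ((ord P.ring t).toNat : ℤ) = ord P.ring t := Int.toNat_of_nonneg (hpos P hP).le
        rw [e1]
        have e2 : ∑ i : ι, algebraMap k F (c i) * (if P = i.1.1 then π i.1.1 ^ (i.2 : ℕ) else 0) =
            ∑ a : Fin (ord P.ring t).toNat, algebraMap k F (c ⟨⟨P, hP⟩, a⟩) * π P ^ (a : ℕ) := by
          rw [Fintype.sum_sigma, Finset.sum_eq_single (⟨P, hP⟩ : S)]
          · apply Finset.sum_congr rfl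
            intro a _
            rw [if_pos rfl]
          · intro Q _ hQ
            apply Finset.sum_eq_zero
            intro a _
            rw [if_neg (fun h => hQ (Subtype.ext h.symm)), mul_zero]
          · intro h; exact absurd (Finset.mem_univ _) h
        rw [← e2]
        have e3 : ∑ i : ι, algebraMap k F (c i) * (if P = i.1.1 then π i.1.1 ^ (i.2 : ℕ) else 0) =
            t * r - ∑ i : ι, algebraMap k F (c i) *
              (z i - (if P = i.1.1 then π i.1.1 ^ (i.2 : ℕ) else 0)) := by
          rw [← hcr, ← Finset.sum_sub_distrib]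
          apply Finset.sum_congr rfl
          intro i _
          ring
        rw [e3]
        refine (Valuation.map_sub _ _ _).trans (max_le ?_ ?_)
        · rw [map_mul, val_eq_exp hF P ht0]
          exact mul_le_of_le_one_right zero_le ((val_le_one_iff hF P r).mpr (hr P hP))
        · apply Valuation.map_sum_le
          intro i _
          rw [map_mul]
          refine (mul_le_of_le_one_left zero_le ((val_le_one_iff hF P _).mpr
            (P.algebraMap_mem _))).trans ?_
          exact (hz i P hP).le.trans (hval0 P hP))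
      exact hker a)
  have h1 : Fintype.card ι = ∑ P : S, (ord P.1.ring t).toNat := by
    simp only [ι, Fintype.card_sigma, Fintype.card_fin]
  have h2 : (∑ P : S, ((ord P.1.ring t).toNat : ℤ)) = ∑ P ∈ S, ord P.ring t := by
    rw [← Finset.sum_coe_sort S (fun P => ord P.ring t)]
    apply Finset.sum_congr rfl
    intro P _
    exact Int.toNat_of_nonneg (hpos P.1 P.2).le
  rw [hE, ← h2]
  rw [h1] at hcard
  exact_mod_cast hcard

/-- A transcendental function has finitely many zeros. -/
theorem finite_zeros {t : F} (ht : Transcendental k t) :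
    {P : Place k F | t ∈ P.ring.nonunits}.Finite := by
  classical
  have ht0 : t ≠ 0 := by
    rintro rfl
    exact ht isAlgebraic_zero
  by_contra hinf
  obtain ⟨S, hS, hcard⟩ := Set.Infinite.exists_subset_card_eq hinf (Module.finrank k⟮t⟯ F + 1)
  have h1 := sum_ord_le hF ht S (fun P hP => hS hP)
  have h2 : (S.card : ℤ) ≤ ∑ P ∈ S, ord P.ring t := by
    rw [Finset.card_eq_sum_ones]
    push_cast
    apply Finset.sum_le_sum
    intro P hP
    exact (ord_pos_iff hF P ht0).mpr (hS hP)
  rw [hcard] at h2
  push_cast at h2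
  omega

omit hF [IsAlgClosed k] in
lemma transcendental_inv' {t : F} (ht : Transcendental k t) : Transcendental k t⁻¹ := by
  intro h
  apply ht
  rw [← inv_inv t]
  exact h.inv

omit hF in
lemma exists_const_of_not_transcendental {f : F} (hf : ¬ Transcendental k f) :
    ∃ b : k, algebraMap k F b = f := by
  have hint : IsIntegral k f := (not_not.mp hf : IsAlgebraic k f).isIntegral
  have hdeg := IsAlgClosed.degree_eq_one_of_irreducible k (minpoly.irreducible hint)
  exact (minpoly.mem_range_of_degree_eq_one k f hdeg)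

/-- A nonzero function has finitely many zeros and poles. -/
theorem finite_support_ord {f : F} (hf : f ≠ 0) : {P : Place k F | ord P.ring f ≠ 0}.Finite := by
  by_cases ht : Transcendental k f
  · refine ((finite_zeros hF ht).union (finite_zeros hF (transcendental_inv' ht))).subset ?_
    intro P hP
    rw [Set.mem_ofPred_eq] at hP
    rcases lt_or_gt_of_ne hP with h | h
    · right
      change f⁻¹ ∈ P.ring.nonunits
      rw [← ord_pos_iff hF P (inv_ne_zero hf), ord_inv hF P hf]
      omega
    · left
      exact (ord_pos_iff hF P hf).mp h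
  · obtain ⟨b, rfl⟩ := exists_const_of_not_transcendental ht
    have hb : b ≠ 0 := by
      rintro rfl
      exact hf (map_zero _)
    convert Set.finite_empty
    ext P
    simp only [Set.mem_ofPred_eq, ord_algebraMap hF P hb, ne_eq, not_true_eq_false,
      Set.mem_empty_iff_false]

omit hF [IsAlgClosed k] in
lemma ord_zero (P : Place k F) : ord P.ring (0 : F) = 0 := by
  unfold ord
  rw [dif_neg]
  rintro ⟨n, π, u, h1, h2, h3, h4⟩
  rcases mul_eq_zero.mp h4.symm with h | h
  · exact h3 (by rw [h]; exact zero_mem _)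
  · exact h1.1 (eq_zero_of_zpow_eq_zero h)

end zeros

section div

variable {k F : Type u} [Field k] [IsAlgClosed k] [Field F] [Algebra k F]
  (hF : IsFunctionField k F)

/-- the divisor of a function (zero for the zero function) -/
noncomputable def dv (f : F) : Place k F →₀ ℤ :=
  Finsupp.ofSupportFinite (fun P => ord P.ring f) (by
    rcases eq_or_ne f 0 with h | h
    · convert Set.finite_empty
      ext P
      rw [h]
      simp [ord_zero]
    · exact finite_support_ord hF h)

lemma dv_apply (f : F) (P : Place k F) : dv hF f P = ord P.ring f := rfl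

lemma dv_zero : dv hF (0 : F) = 0 := by
  ext P
  rw [dv_apply, ord_zero]
  rfl

lemma dv_one : dv hF (1 : F) = 0 := by
  ext P
  rw [dv_apply, ord_one hF]
  rfl

lemma dv_mul {f g : F} (hf : f ≠ 0) (hg : g ≠ 0) : dv hF (f * g) = dv hF f + dv hF g := by
  ext P
  rw [Finsupp.add_apply, dv_apply, dv_apply, dv_apply, ord_mul hF P hf hg]

lemma dv_inv {f : F} (hf : f ≠ 0) : dv hF f⁻¹ = - dv hF f := by
  ext P
  rw [Finsupp.neg_apply, dv_apply, dv_apply, ord_inv hF P hf]

lemma dv_div {f g : F} (hf : f ≠ 0) (hg : g ≠ 0) : dv hF (f / g) = dv hF f - dv hF g := by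
  ext P
  rw [Finsupp.sub_apply, dv_apply, dv_apply, dv_apply, ord_div hF P hf hg]

lemma dv_pow {f : F} (hf : f ≠ 0) (n : ℕ) : dv hF (f ^ n) = n • dv hF f := by
  ext P
  rw [Finsupp.smul_apply, dv_apply, dv_apply, ord_pow hF P hf, nsmul_eq_mul]

lemma dv_algebraMap (a : k) : dv hF (algebraMap k F a) = 0 := by
  rcases eq_or_ne a 0 with rfl | h
  · rw [map_zero, dv_zero]
  · ext P
    rw [dv_apply, ord_algebraMap hF P h]
    rfl

lemma dv_smul {a : k} (ha : a ≠ 0) {f : F} (hf : f ≠ 0) : dv hF (a • f) = dv hF f := by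
  ext P
  rw [dv_apply, dv_apply, ord_smul hF P ha hf]

include hF in
/-- A function without poles is constant. -/
lemma exists_const_of_dv_eq_zero {f : F} (h : ∀ P : Place k F, 0 ≤ ord P.ring f) :
    ∃ b : k, algebraMap k F b = f := by
  by_contra hcon
  have ht : Transcendental k f := by
    by_contra ht
    exact hcon (exists_const_of_not_transcendental ht)
  have hf0 : f ≠ 0 := by
    rintro rfl
    exact ht isAlgebraic_zero
  obtain ⟨P, hP⟩ := exists_place (transcendental_inv' ht)
  rw [← ord_pos_iff hF P (inv_ne_zero hf0), ord_inv hF P hf0] at hP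
  have := h P
  omega

end div

section deg

variable {k F : Type u} [Field k] [Field F] [Algebra k F]

/-- the degree of a divisor -/
noncomputable def deg : (Place k F →₀ ℤ) →+ ℤ := Finsupp.liftAddHom fun _ => AddMonoidHom.id ℤ

lemma deg_eq (D : Place k F →₀ ℤ) : deg D = D.sum fun _ m => m := by
  unfold deg
  rw [Finsupp.liftAddHom_apply]
  rfl

@[simp] lemma deg_single (P : Place k F) (m : ℤ) : deg (Finsupp.single P m) = m := by
  rw [deg_eq, Finsupp.sum_single_index rfl]

lemma deg_nonneg {D : Place k F →₀ ℤ} (h : ∀ P, 0 ≤ D P) : 0 ≤ deg D := by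
  rw [deg_eq]
  exact Finset.sum_nonneg fun P _ => h P

lemma deg_mono {D E : Place k F →₀ ℤ} (h : ∀ P, D P ≤ E P) : deg D ≤ deg E := by
  have h1 := deg_nonneg (D := E - D) (fun P => by rw [Finsupp.sub_apply]; have := h P; omega)
  rw [map_sub] at h1
  omega

lemma eq_zero_of_deg {D : Place k F →₀ ℤ} (h : ∀ P, 0 ≤ D P) (hd : deg D = 0) : D = 0 := by
  ext P
  by_contra hne
  have h1 : 0 < deg D := by
    rw [deg_eq]
    apply Finset.sum_pos'
    · intro Q _; exact h Q
    · exact ⟨P, by rw [Finsupp.mem_support_iff]; exact hne,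
        lt_of_le_of_ne (h P) (fun h => hne h.symm)⟩
  omega

lemma exists_pos_of_deg {D : Place k F →₀ ℤ} (hd : 0 < deg D) : ∃ P, 0 < D P := by
  by_contra hcon
  push Not at hcon
  have := deg_mono (D := D) (E := 0) (fun P => hcon P)
  rw [map_zero] at this
  omega

end deg

end FF

end CX
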