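import Mathlib
import Pool.Agent.Helper40.CX.H17FF.Degree
import Pool.Agent.Helper40.CX.Good

namespace CX

/-!
# Riemann-Roch spaces, Riemann's theorem
-/

namespace FF

open VC WithZero Polynomial IntermediateField

universe u

variable {k F : Type u} [Field k] [IsAlgClosed k] [Field F] [Algebra k F]
  (hF : IsFunctionField k F)

/-- the dimension of the Riemann-Roch space -/
noncomputable abbrev ell (D : Place k F →₀ ℤ) : ℕ := Module.finrank k (riemannRochSpace k F D)

include hF

lemma rr_mono {D D' : Place k F →₀ ℤ} (h : ∀ P, D P ≤ D' P) :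
    riemannRochSpace k F D ≤ riemannRochSpace k F D' := by
  intro f hf
  rcases eq_or_ne f 0 with h0 | h0
  · rw [h0]; exact Submodule.zero_mem _
  · rw [mem_rr hF D' h0]
    rw [mem_rr hF D h0] at hf
    intro P
    have h1 := hf P
    have h2 := h P
    omega

open Classical in
/-- the principal part map -/
lemma exists_lead (D : Place k F →₀ ℤ) (P : Place k F) :
    ∃ Λ : riemannRochSpace k F (D + Finsupp.single P 1) →ₗ[k] k,
      ∀ f, Λ f = 0 ↔ (f : F) ∈ riemannRochSpace k F D := by
  obtain ⟨w, hw0, hword⟩ := exists_ord_eq hF P (D P + 1)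
  have hmem : ∀ f ∈ riemannRochSpace k F (D + Finsupp.single P 1), f * w ∈ P.ring := by
    intro f hf
    rcases eq_or_ne f 0 with h0 | h0
    · rw [h0, zero_mul]; exact P.ring.zero_mem
    · rw [← ord_nonneg_iff hF P (mul_ne_zero h0 hw0), ord_mul hF P h0 hw0, hword]
      have h1 := (mem_rr hF _ h0).mp hf P
      rw [Finsupp.add_apply, Finsupp.single_eq_same] at h1
      omega
  refine ⟨{ toFun := fun f => ev hF P ⟨f * w, hmem f f.2⟩
            map_add' := ?_
            map_smul' := ?_ }, ?_⟩
  · intro f g
    rw [← map_add]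
    congr 1
    apply Subtype.ext
    change ((f : F) + g) * w = f * w + g * w
    ring
  · intro c f
    rw [RingHom.id_apply, smul_eq_mul]
    have h1 := ev_algebraMap hF P c
    conv_rhs => rw [← h1]
    rw [← map_mul]
    congr 1
    apply Subtype.ext
    change (c • (f : F)) * w = algebraMap k F c * (f * w)
    rw [Algebra.smul_def]
    ring
  · intro f
    change ev hF P ⟨f * w, hmem f f.2⟩ = 0 ↔ _
    rw [ev_eq_zero_iff]
    change (f : F) * w ∈ P.ring.nonunits ↔ _
    rcases eq_or_ne (f : F) 0 with h0 | h0
    · rw [h0, zero_mul]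
      exact ⟨fun _ => Submodule.zero_mem _, fun _ => zero_mem _⟩
    · rw [← ord_pos_iff hF P (mul_ne_zero h0 hw0), ord_mul hF P h0 hw0, hword, mem_rr hF _ h0]
      have h4 := (mem_rr hF _ h0).mp f.2
      constructor
      · intro h3 Q
        have h5 := h4 Q
        rw [Finsupp.add_apply, Finsupp.single_apply] at h5
        split_ifs at h5 with hPQ
        · subst hPQ; omega
        · omega
      · intro h3
        have := h3 P
        omega

lemma rr_add_point_aux (D : Place k F →₀ ℤ) (P : Place k F)
    (hfin : FiniteDimensional k (riemannRochSpace k F D)) :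
    FiniteDimensional k (riemannRochSpace k F (D + Finsupp.single P 1)) ∧
      ell (D + Finsupp.single P 1) ≤ ell D + 1 := by
  obtain ⟨Λ, hΛ⟩ := exists_lead hF D P
  have hker : (LinearMap.ker Λ).map (riemannRochSpace k F (D + Finsupp.single P 1)).subtype ≤
      riemannRochSpace k F D := by
    rintro _ ⟨f, hf, rfl⟩
    exact (hΛ f).mp hf
  have hkfin : FiniteDimensional k (LinearMap.ker Λ) := by
    have h1 : FiniteDimensional k
        ((LinearMap.ker Λ).map (riemannRochSpace k F (D + Finsupp.single P 1)).subtype) :=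
      Submodule.finiteDimensional_of_le hker
    exact Module.Finite.of_injective
      ((riemannRochSpace k F (D + Finsupp.single P 1)).subtype.submoduleMap (LinearMap.ker Λ))
      (by
        intro x y hxy
        have := congrArg Subtype.val hxy
        exact Subtype.ext (Subtype.ext this))
  have hfin' : FiniteDimensional k (riemannRochSpace k F (D + Finsupp.single P 1)) := by
    have h2 : Module.Finite k (riemannRochSpace k F (D + Finsupp.single P 1) ⧸ LinearMap.ker Λ) :=
      Module.Finite.equiv (LinearMap.quotKerEquivRange Λ).symm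
    exact Module.Finite.of_submodule_quotient (LinearMap.ker Λ)
  refine ⟨hfin', ?_⟩
  have h1 := LinearMap.finrank_range_add_finrank_ker Λ
  have h2 : Module.finrank k (LinearMap.range Λ) ≤ 1 := by
    have := Submodule.finrank_le (LinearMap.range Λ)
    simpa using this
  have h3 := Submodule.finrank_mono hker
  rw [Submodule.finrank_map_subtype_eq] at h3
  unfold ell
  omega

lemma rr_le_aux (n : ℕ) : ∀ (A : Place k F →₀ ℤ), (∀ P, 0 ≤ A P) → deg A = n →
    ∀ D : Place k F →₀ ℤ, FiniteDimensional k (riemannRochSpace k F D) →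
    FiniteDimensional k (riemannRochSpace k F (D + A)) ∧ ell (D + A) ≤ ell D + n := by
  classical
  induction n with
  | zero =>
    intro A hA hdeg D hD
    rw [eq_zero_of_deg hA (by exact_mod_cast hdeg), add_zero]
    exact ⟨hD, by omega⟩
  | succ n ih =>
    intro A hA hdeg D hD
    obtain ⟨P, hP⟩ := exists_pos_of_deg (D := A) (by rw [hdeg]; positivity)
    obtain ⟨h1, h1'⟩ := ih (A - Finsupp.single P 1) (by
      intro Q
      rw [Finsupp.sub_apply, Finsupp.single_apply]
      split_ifs with hPQ
      · subst hPQ; omega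
      · have := hA Q; omega) (by
      rw [map_sub, deg_single, hdeg]
      push_cast
      ring) D hD
    obtain ⟨h2, h2'⟩ := rr_add_point_aux hF (D + (A - Finsupp.single P 1)) P h1
    have e : D + (A - Finsupp.single P 1) + Finsupp.single P 1 = D + A := by
      rw [add_assoc, sub_add_cancel]
    rw [e] at h2 h2'
    exact ⟨h2, by omega⟩

lemma rr_zero_eq : riemannRochSpace k F (0 : Place k F →₀ ℤ) = Submodule.span k {(1 : F)} := by
  apply le_antisymm
  · intro f hf
    rcases eq_or_ne f 0 with hf0 | hf0
    · rw [hf0]; exact Submodule.zero_mem _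
    · rw [mem_rr hF 0 hf0] at hf
      obtain ⟨b, hb⟩ := exists_const_of_dv_eq_zero hF (f := f) (fun P => by
        have := hf P
        rw [Finsupp.zero_apply] at this
        omega)
      rw [Submodule.mem_span_singleton]
      exact ⟨b, by rw [Algebra.smul_def, mul_one, hb]⟩
  · rw [Submodule.span_le]
    rintro _ rfl
    rw [SetLike.mem_coe, mem_rr hF 0 one_ne_zero]
    intro P
    rw [ord_one hF P]
    simp

lemma ell_zero : ell (0 : Place k F →₀ ℤ) = 1 := by
  unfold ell
  rw [rr_zero_eq hF, finrank_span_singleton one_ne_zero]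

theorem finite_rr (D : Place k F →₀ ℤ) : FiniteDimensional k (riemannRochSpace k F D) := by
  have h0 : FiniteDimensional k (riemannRochSpace k F (0 : Place k F →₀ ℤ)) := by
    rw [rr_zero_eq hF]
    infer_instance
  obtain ⟨n, hn⟩ := Int.eq_ofNat_of_zero_le (deg_nonneg (D := D ⊔ 0) (fun P => by
    rw [Finsupp.sup_apply, Finsupp.zero_apply]; exact le_max_right _ _))
  have h1 := (rr_le_aux hF n (D ⊔ 0) (fun P => by
    rw [Finsupp.sup_apply, Finsupp.zero_apply]; exact le_max_right _ _) hn 0 h0).1
  rw [zero_add] at h1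
  exact Submodule.finiteDimensional_of_le (rr_mono hF (D' := D ⊔ 0) fun P => by
    rw [Finsupp.sup_apply, Finsupp.zero_apply]; exact le_max_left _ _)

lemma ell_mono {D E : Place k F →₀ ℤ} (h : ∀ P, D P ≤ E P) : ell D ≤ ell E := by
  have := finite_rr hF E
  exact Submodule.finrank_mono (rr_mono hF h)

lemma ell_le_add {D E : Place k F →₀ ℤ} (h : ∀ P, D P ≤ E P) :
    (ell E : ℤ) ≤ ell D + (deg E - deg D) := by
  have h1 : ∀ P, 0 ≤ (E - D) P := fun P => by rw [Finsupp.sub_apply]; have := h P; omega
  obtain ⟨n, hn⟩ := Int.eq_ofNat_of_zero_le (deg_nonneg h1)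
  have h2 := (rr_le_aux hF n (E - D) h1 hn D (finite_rr hF D)).2
  rw [add_sub_cancel] at h2
  rw [map_sub] at hn
  rw [hn]
  exact_mod_cast h2

lemma ell_add_single (D : Place k F →₀ ℤ) (P : Place k F) :
    ell (D + Finsupp.single P 1) ≤ ell D + 1 :=
  (rr_add_point_aux hF D P (finite_rr hF D)).2

lemma ell_le_deg {D : Place k F →₀ ℤ} (h : ∀ P, 0 ≤ D P) : (ell D : ℤ) ≤ deg D + 1 := by
  have h1 := ell_le_add hF (D := 0) (E := D) h
  rw [ell_zero hF, map_zero] at h1
  push_cast at h1
  linarith

lemma mem_rr_dv (D : Place k F →₀ ℤ) {h : F} (hh : h ≠ 0) (f : F) :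
    f ∈ riemannRochSpace k F (D + dv hF h) ↔ f * h ∈ riemannRochSpace k F D := by
  rcases eq_or_ne f 0 with h0 | h0
  · rw [h0, zero_mul]
    exact ⟨fun _ => Submodule.zero_mem _, fun _ => Submodule.zero_mem _⟩
  · rw [mem_rr hF _ h0, mem_rr hF _ (mul_ne_zero h0 hh)]
    apply forall_congr'
    intro P
    rw [Finsupp.add_apply, dv_apply, ord_mul hF P h0 hh]
    constructor <;> intro h1 <;> linarith

lemma ell_add_dv (D : Place k F →₀ ℤ) {h : F} (hh : h ≠ 0) : ell (D + dv hF h) = ell D := by
  have e : riemannRochSpace k F D =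
      (riemannRochSpace k F (D + dv hF h)).map (LinearMap.mulRight k h) := by
    ext f
    rw [Submodule.mem_map]
    constructor
    · intro hf
      refine ⟨f / h, ?_, ?_⟩
      · rw [mem_rr_dv hF D hh, div_mul_cancel₀ _ hh]
        exact hf
      · rw [LinearMap.mulRight_apply, div_mul_cancel₀ _ hh]
    · rintro ⟨g, hg, rfl⟩
      rw [LinearMap.mulRight_apply]
      exact (mem_rr_dv hF D hh g).mp hg
  unfold ell
  rw [e]
  refine (Submodule.equivMapOfInjective (LinearMap.mulRight k h) ?_ _).finrank_eq
  intro x y hxy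
  exact mul_right_cancel₀ hh hxy

/-- the divisor of poles -/
noncomputable def poles (f : F) : Place k F →₀ ℤ := (- dv hF f) ⊔ 0

lemma poles_apply (f : F) (P : Place k F) : poles hF f P = max (- ord P.ring f) 0 := by
  unfold poles
  rw [Finsupp.sup_apply, Finsupp.neg_apply, dv_apply, Finsupp.zero_apply]

lemma poles_nonneg (f : F) (P : Place k F) : 0 ≤ poles hF f P := by
  rw [poles_apply]
  exact le_max_right _ _

lemma mem_rr_poles (f : F) : f ∈ riemannRochSpace k F (poles hF f) := by
  rcases eq_or_ne f 0 with h0 | h0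
  · rw [h0]; exact Submodule.zero_mem _
  · rw [mem_rr hF _ h0]
    intro P
    rw [poles_apply]
    have := le_max_left (- ord P.ring f) 0
    omega

omit hF [IsAlgClosed k] in
lemma adjoin_inv (f : F) : k⟮f⁻¹⟯ = k⟮f⟯ := by
  apply le_antisymm
  · rw [IntermediateField.adjoin_simple_le_iff]
    exact inv_mem (IntermediateField.mem_adjoin_simple_self k f)
  · rw [IntermediateField.adjoin_simple_le_iff]
    have := inv_mem (IntermediateField.mem_adjoin_simple_self k f⁻¹)
    rwa [inv_inv] at this

omit hF [IsAlgClosed k] in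
lemma linearIndependent_pow' {t : F} (ht : Transcendental k t) (n : ℕ) :
    LinearIndependent k (fun i : Fin n => t ^ (i : ℕ)) := by
  have h1 := (Polynomial.basisMonomials k).linearIndependent.map' (aeval t : k[X] →ₐ[k] F).toLinearMap
    (by
      rw [LinearMap.ker_eq_bot]
      exact transcendental_iff_injective.mp ht)
  have h2 := h1.comp (fun i : Fin n => (i : ℕ)) Fin.val_injective
  have e : (fun i : Fin n => t ^ (i : ℕ)) =
      (⇑(aeval t : k[X] →ₐ[k] F).toLinearMap ∘ ⇑(basisMonomials k)) ∘ fun i : Fin n => (i : ℕ) := by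
    funext i
    simp
  rw [e]
  exact h2

omit hF [IsAlgClosed k] in
/-- independent multiples of powers of `t` -/
lemma linearIndependent_mul_pow {t : F} (ht : Transcendental k t) (m : ℕ) {ι : Type*}
    (u : ι → F) (hu : LinearIndependent k⟮t⟯ u) :
    LinearIndependent k (fun p : Fin m × ι => t ^ (p.1 : ℕ) * u p.2) := by
  have h1 : LinearIndependent k (fun i : Fin m => (AdjoinSimple.gen k t) ^ (i : ℕ)) := by
    have h2 := linearIndependent_pow' (k := k) (F := k⟮t⟯) (t := AdjoinSimple.gen k t) (by
      rw [← transcendental_algebraMap_iff (algebraMap k⟮t⟯ F).injective]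
      rw [AdjoinSimple.algebraMap_gen]
      exact ht) m
    exact h2
  have h3 := _root_.linearIndependent_smul h1 hu
  have e : (fun p : Fin m × ι => t ^ (p.1 : ℕ) * u p.2) =
      fun p : Fin m × ι => (AdjoinSimple.gen k t) ^ (p.1 : ℕ) • u p.2 := by
    funext p
    rw [Algebra.smul_def, map_pow, AdjoinSimple.algebraMap_gen]
  rw [e]
  exact h3

/-- The degree of the divisor of poles. -/
theorem deg_poles {t : F} (ht : Transcendental k t) :
    deg (poles hF t) = Module.finrank k⟮t⟯ F := by
  classical
  have ht0 : t ≠ 0 := by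
    rintro rfl
    exact ht isAlgebraic_zero
  have hfin := hF.finiteDimensional ht
  apply le_antisymm
  · have h1 := sum_ord_le hF (transcendental_inv' ht) (poles hF t).support (by
      intro P hP
      rw [Finsupp.mem_support_iff, poles_apply] at hP
      rw [← ord_pos_iff hF P (inv_ne_zero ht0), ord_inv hF P ht0]
      rcases le_or_gt (- ord P.ring t) 0 with h | h
      · rw [max_eq_right h] at hP
        exact absurd rfl hP
      · exact h)
    rw [adjoin_inv] at h1
    rw [deg_eq, Finsupp.sum]
    refine le_trans (le_of_eq ?_) h1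
    apply Finset.sum_congr rfl
    intro P hP
    rw [Finsupp.mem_support_iff, poles_apply] at hP
    rw [poles_apply, ord_inv hF P ht0]
    rcases le_or_gt (- ord P.ring t) 0 with h | h
    · rw [max_eq_right h] at hP
      exact absurd rfl hP
    · rw [max_eq_left h.le]
  · by_contra hcon
    rw [not_le] at hcon
    set n := Module.finrank k⟮t⟯ F with hn
    have hnpos : 0 < n := Module.finrank_pos
    let u := Module.finBasis k⟮t⟯ F
    let C : Place k F →₀ ℤ := ∑ j, poles hF (u j)
    have hC0 : ∀ P, 0 ≤ C P := by
      intro P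
      rw [Finsupp.finsetSum_apply]
      exact Finset.sum_nonneg fun j _ => poles_nonneg hF _ P
    have hC : ∀ j P, - ord P.ring (u j) ≤ C P := by
      intro j P
      rw [Finsupp.finsetSum_apply]
      have h1 := Finset.single_le_sum (f := fun j => poles hF (u j) P)
        (fun j _ => poles_nonneg hF _ P) (Finset.mem_univ j)
      have h2 : - ord P.ring (u j) ≤ poles hF (u j) P := by
        rw [poles_apply]; exact le_max_left _ _
      exact h2.trans h1
    have key : ∀ l : ℕ, ((l + 1) * n : ℤ) ≤ l * deg (poles hF t) + deg C + 1 := by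
      intro l
      have hnn : ∀ P, 0 ≤ (l • poles hF t + C) P := by
        intro P
        rw [Finsupp.add_apply, Finsupp.smul_apply, nsmul_eq_mul]
        have := poles_nonneg hF t P
        have := hC0 P
        positivity
      have h1 := ell_le_deg hF hnn
      rw [map_add, map_nsmul, nsmul_eq_mul] at h1
      have h2 := linearIndependent_mul_pow ht (l + 1) u u.linearIndependent
      have hmem : ∀ p : Fin (l + 1) × Fin n, t ^ (p.1 : ℕ) * u p.2 ∈
          riemannRochSpace k F (l • poles hF t + C) := by
        intro p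
        have hu0 : u p.2 ≠ 0 := u.ne_zero p.2
        rw [mem_rr hF _ (mul_ne_zero (pow_ne_zero _ ht0) hu0)]
        intro P
        rw [ord_mul hF P (pow_ne_zero _ ht0) hu0, ord_pow hF P ht0, Finsupp.add_apply,
          Finsupp.smul_apply, nsmul_eq_mul, poles_apply]
        have h3 := hC p.2 P
        have h4 : ((p.1 : ℕ) : ℤ) ≤ l := by
          have := p.1.2
          omega
        have h5 : (((p.1 : ℕ) : ℤ)) * (- ord P.ring t) ≤ l * max (- ord P.ring t) 0 := by
          calc (((p.1 : ℕ) : ℤ)) * (- ord P.ring t) ≤ ((p.1 : ℕ) : ℤ) * max (- ord P.ring t) 0 :=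
                mul_le_mul_of_nonneg_left (le_max_left _ _) (by positivity)
            _ ≤ l * max (- ord P.ring t) 0 := mul_le_mul_of_nonneg_right h4 (le_max_right _ _)
        linarith
      have h3 : LinearIndependent k (fun p : Fin (l + 1) × Fin n =>
          (⟨t ^ (p.1 : ℕ) * u p.2, hmem p⟩ : riemannRochSpace k F (l • poles hF t + C))) :=
        LinearIndependent.of_comp (riemannRochSpace k F (l • poles hF t + C)).subtype h2
      have := finite_rr hF (l • poles hF t + C)
      have h4 := h3.fintype_card_le_finrank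
      rw [Fintype.card_prod, Fintype.card_fin, Fintype.card_fin] at h4
      have h5 : (((l + 1) * n : ℕ) : ℤ) ≤ ell (l • poles hF t + C) := by exact_mod_cast h4
      push_cast at h5
      linarith
    have h6 := key (deg C + 1).toNat
    have h7 : (((deg C + 1).toNat : ℕ) : ℤ) = deg C + 1 :=
      Int.toNat_of_nonneg (by have := deg_nonneg hC0; omega)
    rw [h7] at h6
    have h8 := deg_nonneg hC0
    nlinarith

/-- The degree of the divisor of zeros. -/
theorem deg_dv {f : F} (hf : f ≠ 0) : deg (dv hF f) = 0 := by
  by_cases ht : Transcendental k f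
  · have h1 := deg_poles hF ht
    have h2 := deg_poles hF (transcendental_inv' ht)
    rw [adjoin_inv, ← h1] at h2
    have h3 : dv hF f = poles hF f⁻¹ - poles hF f := by
      ext P
      rw [Finsupp.sub_apply, poles_apply, poles_apply, dv_apply, ord_inv hF P hf, neg_neg]
      rcases le_total (ord P.ring f) 0 with h | h
      · rw [max_eq_right h, max_eq_left (by omega)]; ring
      · rw [max_eq_left h, max_eq_right (by omega)]; ring
    rw [h3, map_sub, h2, sub_self]
  · obtain ⟨b, rfl⟩ := exists_const_of_not_transcendental ht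
    rw [dv_algebraMap, map_zero]

lemma ell_eq_zero_of_deg_neg {D : Place k F →₀ ℤ} (hD : deg D < 0) : ell D = 0 := by
  have h : riemannRochSpace k F D = ⊥ := by
    rw [eq_bot_iff]
    intro f hf
    rw [Submodule.mem_bot]
    by_contra h0
    rw [mem_rr hF D h0] at hf
    have h1 := deg_nonneg (D := dv hF f + D) (fun P => by
      rw [Finsupp.add_apply, dv_apply]; exact hf P)
    rw [map_add, deg_dv hF h0] at h1
    omega
  unfold ell
  rw [h, finrank_bot]

end FF

end CX
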